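import Pool.Agent.Y553.GSH.Deg

/-! Rankings of automata: a cycle rank for the generalized star height. -/

set_option autoImplicit false
set_option linter.unusedSectionVars false

namespace Pool.Agent.Y553.GSH

open Pool.Agent.H936R2.SH Pool.Agent.H815R3.GSH

section

variable {Q α : Type} (δ : Q → α → Q)

theorem HS.mono {α : Type} {n m : ℕ} {X : Set (List α)} (h : HS n X) (hnm : n ≤ m) : HS m X := by
  obtain ⟨k, rfl⟩ := Nat.exists_eq_add_of_le hnm
  induction k with
  | zero => exact h
  | succ k ih => exact (ih (by omega)).succ

/-- `δ` has a walk from `p` to `q` avoiding `B`. -/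
def Reach (B : Set Q) (p q : Q) : Prop := ∃ u : List α, Avoids δ B p u ∧ u.foldl δ p = q

/-- One more state, which is not on a closed walk with the states of `C`. -/
theorem stepC [Finite Q] [Finite α] {n : ℕ} (B C : Set Q) (b : Q) (hBC : B ⊆ C) (hb : b ∈ C)
    (hbB : b ∉ B)
    (hsep : ∀ u : List α, Avoids δ B b u → u.foldl δ b = b →
      ∀ u₁ u₂ : List α, u = u₁ ++ u₂ → u₁.foldl δ b ∈ C → u₁.foldl δ b = b)
    (h0 : ∀ p q, HS n {w : List α | w.foldl (dlB δ C) (some p) = some q})
    (h : ∀ p q, HS (n + 1) {w : List α | w.foldl (dlB δ (insert b B)) (some p) = some q})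
    (p q : Q) :
    HS (n + 1) {w : List α | w.foldl (dlB δ B) (some p) = some q} := by
  have hF : ∀ p, HS (n + 1) (Fh (dlB δ B) (some b) (some p)) := by
    intro p
    refine Fh_HS _ _ _ fun s a hs => ?_
    cases s with
    | none => exact absurd hs (by simp [dlB])
    | some s => rw [Pa_dlB δ B b]; exact h p s
  have hret : Fh (dlB δ B) (some b) (some b) =
      ⋃ s : Q, ⋃ a : α, {w | dlB δ B (some s) a = some b ∧
        w ∈ cat {w : List α | w.foldl (dlB δ C) (some b) = some s} {[a]}} := by
    rw [Fh_eq]
    ext w
    simp only [Set.mem_iUnion, Set.mem_ofPred_eq]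
    constructor
    · rintro ⟨s, a, hs, x, hx, y, hy, rfl⟩
      cases s with
      | none => exact absurd hs (by simp [dlB])
      | some s =>
        refine ⟨s, a, hs, x, ?_, y, hy, rfl⟩
        rw [Pa_dlB δ B b] at hx
        have hx' : x.foldl (dlB δ (insert b B)) (some b) = some s := hx
        rw [Set.mem_singleton_iff] at hy
        subst hy
        have hsa : δ s a = b := by
          rw [dlB] at hs
          split_ifs at hs
          exact Option.some.inj hs
        -- the run of `x` from `b` avoids `C`
        have hgen : ∀ (x v : List α) (c : Q), v.foldl δ b = c → Avoids δ B b v →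
            x.foldl (dlB δ (insert b B)) (some c) = some s →
            x.foldl (dlB δ C) (some c) = some s := by
          intro x
          induction x with
          | nil => intro v c _ _ h; exact h
          | cons d x ih =>
            intro v c hv hvB h3
            rw [List.foldl_cons, dlB] at h3
            by_cases h4 : δ c d ∈ insert b B
            · rw [if_pos h4, dlB_none] at h3
              exact absurd h3 (by simp)
            · rw [if_neg h4] at h3
              have h5 : δ c d ∉ C := by
                intro h6
                apply h4
                -- close the walk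
                have h7 : δ c d ∉ B := fun h => h4 (Set.mem_insert_of_mem _ h)
                have h8 := (dlB_Avoids δ (insert b B) x (δ c d) s h4).1 h3
                have h9 : ∀ (x : List α) (e : Q), Avoids δ (insert b B) e x →
                    Avoids δ B e x := by
                  intro x
                  induction x with
                  | nil => intro e he h; exact he (Set.mem_insert_of_mem _ h)
                  | cons y x ihx =>
                    intro e he
                    exact ⟨fun h => he.1 (Set.mem_insert_of_mem _ h), ihx _ he.2⟩
                have hw : Avoids δ B b ((v ++ [d]) ++ (x ++ [a])) := by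
                  rw [Avoids_append, Avoids_append, List.foldl_append, hv, Avoids_append]
                  refine ⟨⟨hvB, ?_, h7⟩, h9 _ _ h8.1, ?_⟩
                  · have := hvB
                    rw [← hv]
                    have h10 := (Avoids_append δ B b v []).1 (by simpa using hvB)
                    exact h10.2
                  · change Avoids δ B (x.foldl δ (δ c d)) [a]
                    rw [h8.2]
                    refine ⟨?_, ?_⟩
                    · have h10 := (Avoids_append δ B (δ c d) x []).1 (by simpa using h9 _ _ h8.1)
                      rw [h8.2] at h10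
                      exact h10.2
                    · change δ s a ∉ B
                      rw [hsa]; exact hbB
                have hc : ((v ++ [d]) ++ (x ++ [a])).foldl δ b = b := by
                  simp only [List.foldl_append, hv, List.foldl_cons, List.foldl_nil]
                  rw [h8.2]; exact hsa
                have h11 := hsep _ hw hc (v ++ [d]) (x ++ [a]) rfl (by
                  rw [List.foldl_append, hv]; exact h6)
                rw [List.foldl_append, hv] at h11
                change δ c d = b at h11
                rw [h11]
                exact Set.mem_insert b B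
              rw [List.foldl_cons, dlB, if_neg h5]
              exact ih (v ++ [d]) (δ c d) (by rw [List.foldl_append, hv]; rfl) (by
                rw [Avoids_append, hv]
                refine ⟨hvB, ?_, fun h => h4 (Set.mem_insert_of_mem _ h)⟩
                have h10 := (Avoids_append δ B b v []).1 (by simpa using hvB)
                rw [hv] at h10
                exact h10.2) h3
        exact hgen x [] b rfl hbB hx'
    · rintro ⟨s, a, hs, x, hx, y, hy, rfl⟩
      refine ⟨some s, a, hs, x, ?_, y, hy, rfl⟩
      rw [Pa_dlB δ B b]
      -- avoiding `C` implies avoiding `insert b B`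
      have hsub : insert b B ⊆ C := by
        rintro z (rfl | hz)
        · exact hb
        · exact hBC hz
      have hgen : ∀ (x : List α) (c : Q), x.foldl (dlB δ C) (some c) = some s →
          x.foldl (dlB δ (insert b B)) (some c) = some s := by
        intro x
        induction x with
        | nil => intro c h; exact h
        | cons d x ih =>
          intro c h
          rw [List.foldl_cons, dlB] at h
          by_cases h1 : δ c d ∈ C
          · rw [if_pos h1, dlB_none] at h
            exact absurd h (by simp)
          · rw [if_neg h1] at h
            rw [List.foldl_cons, dlB, if_neg (fun h2 => h1 (hsub h2))]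
            exact ih _ h
      exact hgen x b hx
  have hr : HS n (Fh (dlB δ B) (some b) (some b)) := by
    rw [hret]
    exact HS.iUnion _ fun s => HS.iUnion _ fun a =>
      HS.cond _ fun _ => (h0 b s).cat (.letter n a)
  rw [run_eq (dlB δ B) (some b)]
  refine HS.union ?_ (((hF p).cat hr.star).cat ?_)
  · rw [Pa_dlB δ B b]; exact h p q
  · rw [Pa_dlB δ B b]; exact h b q

/-- A ranking of an automaton: a closed walk which meets two different states of the same rank
`i ≥ 1` meets a state of larger rank, and the automaton is counter-free outside of the states of
positive rank. -/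
def Ranking (ρ : Q → ℕ) : Prop :=
  (∀ (p : Q) (u v : List α), (u ++ v).foldl δ p = p → u.foldl δ p ≠ p → 1 ≤ ρ p →
    ρ (u.foldl δ p) = ρ p →
    ∃ s t : List α, u ++ v = s ++ t ∧ ρ p < ρ (s.foldl δ p)) ∧
  CounterFreeOff δ {q | 1 ≤ ρ q}

theorem Avoids_prefix {B : Set Q} {p : Q} {s t : List α} (h : Avoids δ B p (s ++ t)) :
    s.foldl δ p ∉ B :=
  ((Avoids_append δ B p s t).1 h).2.start

theorem Avoids_prefix' {Q α : Type} (δ : Q → α → Q) {B : Set Q} {p : Q} {s t : List α}
    (h : Avoids δ B p (s ++ t)) : s.foldl δ p ∉ B :=
  ((Avoids_append δ B p s t).1 h).2.start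

/-- The states of rank greater than `i` deleted. -/
theorem rank_HS [Finite Q] [Finite α] (ρ : Q → ℕ) (hρ : Ranking δ ρ) (i : ℕ) :
    ∀ p q, HS i {w : List α | w.foldl (dlB δ {q | i < ρ q}) (some p) = some q} := by
  classical
  induction i with
  | zero =>
    intro p q
    have hCF : CF (dlB δ {q | 0 < ρ q}) (Set.univ : Set α) := by
      intro o u k _ hk ho
      cases o with
      | none => exact dlB_none δ _ u
      | some r =>
        by_cases hu : u = []
        · subst hu; rfl
        rw [foldl_pow] at ho
        have hne : (List.replicate k u).flatten ≠ [] := by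
          intro h2
          rw [List.flatten_eq_nil_iff] at h2
          exact hu (h2 u (List.mem_replicate.2 ⟨hk.ne', rfl⟩))
        have hq : r ∉ {q | 0 < ρ q} := dlB_end δ _ _ hne r r ho
        obtain ⟨h1, h2⟩ := (dlB_Avoids δ _ _ r r hq).1 ho
        have h3 := hρ.2 r u k hk h1 h2
        rw [dlB_Avoids δ _ _ r r hq]
        refine ⟨?_, h3⟩
        obtain ⟨k, rfl⟩ := Nat.exists_eq_add_of_lt hk
        rw [zero_add, List.replicate_succ, List.flatten_cons, Avoids_append] at h1
        exact h1.1
    have := schutz _ (Option Q) le_rfl α (dlB δ {q | 0 < ρ q}) _ Set.univ le_rfl hCF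
      (some p) (some q)
    convert this using 1
    ext w
    simp
  | succ i ih =>
    have := Fintype.ofFinite Q
    -- add the states of rank `i + 1` one by one
    have key : ∀ D : Finset Q, (∀ x ∈ D, ρ x = i + 1) → ∀ p q,
        HS (i + 1) {w : List α |
          w.foldl (dlB δ ({q | i < ρ q} \ (D : Set Q))) (some p) = some q} := by
      intro D
      induction D using Finset.induction_on with
      | empty =>
        intro _ p q
        rw [Finset.coe_empty, Set.sdiff_empty]
        exact (ih p q).succ
      | insert b D hb ihD =>
        intro hD p q
        have hbr : ρ b = i + 1 := hD b (Finset.mem_insert_self b D)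
        have hih := ihD (fun x hx => hD x (Finset.mem_insert_of_mem hx))
        refine stepC δ ({q | i < ρ q} \ ((insert b D : Finset Q) : Set Q)) {q | i < ρ q} b
          Set.sdiff_subset (by change i < ρ b; omega) (by simp) ?_ ih ?_ p q
        · intro u hu hub u₁ u₂ hu12 hC
          by_contra hne
          have h1 : u₁.foldl δ b ∈ ((insert b D : Finset Q) : Set Q) := by
            rw [hu12] at hu
            have h2 := Avoids_prefix δ hu
            by_contra h3
            exact h2 ⟨hC, h3⟩
          have h2 : ρ (u₁.foldl δ b) = i + 1 := hD _ (by simpa using h1)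
          obtain ⟨s, t, hst, hs⟩ := hρ.1 b u₁ u₂ (by rw [← hu12]; exact hub) hne (by omega)
            (by rw [h2, hbr])
          rw [hu12, hst] at hu
          have h3 := Avoids_prefix δ hu
          apply h3
          refine ⟨?_, ?_⟩
          · change i < ρ (s.foldl δ b); omega
          · intro h4
            have := hD _ (by simpa using h4)
            omega
        · intro p q
          have h1 := hih p q
          have h2 : insert b ({q | i < ρ q} \ ((insert b D : Finset Q) : Set Q)) =
              {q | i < ρ q} \ (D : Set Q) := by
            ext x
            simp only [Finset.coe_insert, Set.mem_insert_iff, Set.mem_sdiff, Set.mem_ofPred_eq,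
              Finset.mem_coe]
            constructor
            · rintro (rfl | ⟨h3, h4⟩)
              · exact ⟨by omega, hb⟩
              · exact ⟨h3, fun h5 => h4 (Or.inr h5)⟩
            · rintro ⟨h3, h4⟩
              by_cases hx : x = b
              · exact Or.inl hx
              · exact Or.inr ⟨h3, fun h5 => h5.elim hx h4⟩
          rw [h2]; exact h1
    intro p q
    have h1 := key (Finset.univ.filter fun x => ρ x = i + 1) (fun x hx => by simpa using hx) p q
    have h2 : ({q | i < ρ q} \ ((Finset.univ.filter fun x => ρ x = i + 1 : Finset Q) : Set Q)) =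
        {q | i + 1 < ρ q} := by
      ext x
      simp only [Finset.coe_filter, Finset.mem_univ, true_and, Set.mem_sdiff, Set.mem_ofPred_eq]
      omega
    rwa [h2] at h1

/-- **Main theorem for rankings.** -/
theorem ranking_run [Finite Q] [Finite α] (ρ : Q → ℕ) (hρ : Ranking δ ρ) (r : ℕ)
    (hr : ∀ q, ρ q ≤ r) (p q : Q) : HS r {w : List α | w.foldl δ p = q} := by
  have h := rank_HS δ ρ hρ r p q
  have h2 : {q | r < ρ q} = (∅ : Set Q) := by
    ext x
    simp only [Set.mem_ofPred_eq, Set.mem_empty_iff_false, iff_false, not_lt]
    exact hr x
  rw [h2] at h
  simpa only [dlB_empty] using h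

/-- Every language recognised by the transition monoid. -/
theorem ranking_rec [Finite Q] [Finite α] (ρ : Q → ℕ) (hρ : Ranking δ ρ) (r : ℕ)
    (hr : ∀ q, ρ q ≤ r) (T : Set (Q → Q)) :
    HS r {w : List α | (fun q => w.foldl δ q) ∈ T} := by
  have h1 : HS r (⋃ t : Q → Q, {w : List α | t ∈ T ∧ w ∈ ⋂ q : Q,
      {w : List α | w.foldl δ q = t q}}) :=
    HS.iUnion _ fun t => HS.cond _ fun _ => HS.iInter _ fun q => ranking_run δ ρ hρ r hr q _
  convert h1 using 1
  ext w
  simp only [Set.mem_ofPred_eq, Set.mem_iUnion, Set.mem_iInter]
  constructor
  · intro h
    exact ⟨_, h, fun q => rfl⟩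
  · rintro ⟨t, ht, h⟩
    have : (fun q => w.foldl δ q) = t := funext h
    rw [this]; exact ht

end

end Pool.Agent.Y553.GSH
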