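import Pool.Agent.Y553.GSH.Rank

/-! Groups acting on `k` points: generalized star height at most `k - 2`; kernels. -/

set_option autoImplicit false
set_option linter.unusedSectionVars false
set_option linter.style.haveILetI false

namespace Pool.Agent.Y553.GSH

open Pool.Agent.H936R2.SH Pool.Agent.H815R3.GSH
open scoped commutatorElement

theorem comm_fin (k : ℕ) (hk : k ≤ 3) (x y : Equiv.Perm (Fin k))
    (hx : Equiv.Perm.sign x = 1) (hy : Equiv.Perm.sign y = 1) : x * y = y * x := by
  have h0 : ∀ x y : Equiv.Perm (Fin 0), Equiv.Perm.sign x = 1 → Equiv.Perm.sign y = 1 →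
      x * y = y * x := by decide
  have h1 : ∀ x y : Equiv.Perm (Fin 1), Equiv.Perm.sign x = 1 → Equiv.Perm.sign y = 1 →
      x * y = y * x := by decide
  have h2 : ∀ x y : Equiv.Perm (Fin 2), Equiv.Perm.sign x = 1 → Equiv.Perm.sign y = 1 →
      x * y = y * x := by decide
  have h3 : ∀ x y : Equiv.Perm (Fin 3), Equiv.Perm.sign x = 1 → Equiv.Perm.sign y = 1 →
      x * y = y * x := by decide
  interval_cases k
  · exact h0 x y hx hy
  · exact h1 x y hx hy
  · exact h2 x y hx hy
  · exact h3 x y hx hy

theorem foldl_inv {Ω α : Type} (f : α → Equiv.Perm Ω) (w : List α) (c : Ω) :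
    w.foldl (fun x a => f a x) c = ((w.map (fun a => (f a)⁻¹)).prod)⁻¹ c := by
  induction w generalizing c with
  | nil => simp
  | cons a w ih =>
    rw [List.foldl_cons, ih, List.map_cons, List.prod_cons, mul_inv_rev, inv_inv,
      Equiv.Perm.mul_apply]

theorem three {α : Type} [Finite α] (Ω : Type) [Finite Ω] (hΩ : Nat.card Ω ≤ 3)
    (f : α → Equiv.Perm Ω) (c d : Ω) :
    HS 1 {w : List α | w.foldl (fun x a => f a x) c = d} := by
  classical
  have := Fintype.ofFinite Ω
  have h2 : Fact (Nat.Prime 2) := ⟨Nat.prime_two⟩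
  have hab : ∀ x y : alternatingGroup Ω, x * y = y * x := by
    intro x y
    obtain ⟨k, hk⟩ : ∃ k, Fintype.card Ω = k := ⟨_, rfl⟩
    have hk3 : k ≤ 3 := by rw [← hk, ← Nat.card_eq_fintype_card]; exact hΩ
    let e : Ω ≃ Fin k := Fintype.equivFinOfCardEq hk
    apply Subtype.ext
    have h := comm_fin k hk3 (e.permCongr x.1) (e.permCongr y.1)
      (by rw [Equiv.Perm.sign_permCongr]; exact Equiv.Perm.mem_alternatingGroup.1 x.2)
      (by rw [Equiv.Perm.sign_permCongr]; exact Equiv.Perm.mem_alternatingGroup.1 y.2)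
    rw [← Equiv.permCongr_mul, ← Equiv.permCongr_mul] at h
    exact e.permCongr.injective h
  have hd : derivedSeries (alternatingGroup Ω) (0 + 1) = ⊥ := by
    rw [zero_add, derivedSeries_one, commutator_def, Subgroup.commutator_eq_bot_iff_le_centralizer]
    intro x _
    rw [Subgroup.mem_centralizer_iff]
    intro y _
    exact hab y x
  have hs := solv 2 0 (Equiv.Perm Ω) (alternatingGroup Ω) hd
    (by
      intro g h
      rw [Equiv.Perm.mem_alternatingGroup]
      simp only [map_mul, map_inv]
      rcases Int.units_eq_one_or (Equiv.Perm.sign g) with h1 | h1 <;>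
        rcases Int.units_eq_one_or (Equiv.Perm.sign h) with h2 | h2 <;> rw [h1, h2] <;> decide)
    (by
      intro g
      rw [Equiv.Perm.mem_alternatingGroup, map_pow]
      rcases Int.units_eq_one_or (Equiv.Perm.sign g) with h | h <;> rw [h] <;> decide)
    (fun a => (f a)⁻¹) {π | π⁻¹ c = d}
  convert hs using 1
  ext w
  simp only [Set.mem_ofPred_eq]
  rw [foldl_inv]

/-- Permutation automata with at most `r + 2` states, `r ≥ 1`. -/
theorem deg {α : Type} [Finite α] (r : ℕ) : ∀ (Ω : Type) [Finite Ω], Nat.card Ω ≤ r + 3 →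
    ∀ (f : α → Equiv.Perm Ω) (c d : Ω),
    HS (r + 1) {w : List α | w.foldl (fun x a => f a x) c = d} := by
  classical
  induction r with
  | zero =>
    intro Ω _ hΩ f c d
    exact three Ω hΩ f c d
  | succ r ih =>
    intro Ω _ hΩ f c d
    have hcard : Nat.card {x : Ω // x ≠ c} ≤ r + 3 := by
      have := Fintype.ofFinite Ω
      rw [Nat.card_eq_fintype_card] at hΩ ⊢
      rw [Fintype.card_subtype_compl, Fintype.card_subtype_eq]
      omega
    have h1 : ∀ p q : Ω, p ≠ c → q ≠ c → HS (r + 1) (Pa (fun x a => f a x) c p q) := by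
      intro p q hp hq
      have hc := compl_eq (α := α) (fun x a => f a x) c (fun x a => cpl c (f a) x)
        (fun x a h => cpl_apply c (f a) x h) ⟨p, hp⟩ ⟨q, hq⟩
      simp only at hc
      rw [hc]
      have h2 := ih {x : Ω // x ≠ c} hcard (fun a => cpl c (f a))
      refine (h2 _ _).inter (HS.iUnion _ fun s => HS.iUnion _ fun a => ?_).compl
      exact HS.cond _ fun _ => ((h2 _ _).cat (.letter _ a)).cat (HS.univ _)
    have h2 := allPa (fun x a => f a x) c h1
    exact run_n (fun x a => f a x) c c d (fun s _ => h2 c s) (fun s _ => h2 c s)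

/-! ### Groups -/

theorem lift_solv {α : Type} [Finite α] (r j : ℕ) :
    ∀ (G : Type) [Group G] [Finite G] (N : Subgroup G) [N.Normal],
    derivedSeries N j = ⊥ → ∀ (f : α → G),
    (∀ x : G ⧸ N, HS r {w : List α | (((w.map f).prod : G) : G ⧸ N) = x}) →
    ∀ (S : Set G), HS (r + j) {w : List α | (w.map f).prod ∈ S} := by
  induction j with
  | zero =>
    intro G _ _ N _ hd f h S
    have hN : ∀ x ∈ N, x = 1 := by
      intro x hx
      have h1 : (⟨x, hx⟩ : N) ∈ (derivedSeries N 0 : Subgroup N) := by
        rw [derivedSeries_zero]; exact Subgroup.mem_top _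
      rw [hd] at h1
      exact congrArg Subtype.val (Subgroup.mem_bot.1 h1)
    have h1 : HS r (⋃ g : G, {w : List α | g ∈ S ∧ w ∈
        {w : List α | (((w.map f).prod : G) : G ⧸ N) = g}}) :=
      HS.iUnion _ fun g => HS.cond _ fun _ => h _
    rw [Nat.add_zero]
    convert h1 using 1
    ext w
    simp only [Set.mem_ofPred_eq, Set.mem_iUnion]
    constructor
    · intro hw
      exact ⟨_, hw, rfl⟩
    · rintro ⟨g, hg, hw⟩
      rw [QuotientGroup.eq] at hw
      have := hN _ hw
      rw [inv_mul_eq_one] at this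
      rw [this]; exact hg
  | succ j ih =>
    intro G _ _ N _ hd f hf S
    set D : Subgroup G := (derivedSeries N j).map N.subtype with hD
    have hDn : D.Normal := ConjAct.normal_of_characteristic_of_normal
    have hDa : ∀ x ∈ D, ∀ y ∈ D, x * y = y * x := by
      rintro _ ⟨x, hx, rfl⟩ _ ⟨y, hy, rfl⟩
      have h1 : ⁅x, y⁆ ∈ derivedSeries N (j + 1) :=
        Subgroup.commutator_mem_commutator hx hy
      rw [hd] at h1
      have h2 := commutatorElement_eq_one_iff_mul_comm.1 (Subgroup.mem_bot.1 h1)
      exact congrArg Subtype.val h2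
    have hDN : D ≤ N := by
      rintro _ ⟨x, -, rfl⟩
      exact x.2
    apply step D f hDa
    intro x
    set N' : Subgroup (G ⧸ D) := N.map (QuotientGroup.mk' D) with hN'
    have hN'n : N'.Normal := Subgroup.Normal.map inferInstance _ (QuotientGroup.mk'_surjective D)
    have hmem : ∀ g : G, ((g : G) : G ⧸ D) ∈ N' ↔ g ∈ N := by
      intro g
      constructor
      · rintro ⟨h, hh, he⟩
        have he' : ((h : G) : G ⧸ D) = g := he
        rw [QuotientGroup.eq] at he'
        have := N.mul_mem hh (hDN he')
        rwa [mul_inv_cancel_left] at this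
      · intro hg
        exact ⟨g, hg, rfl⟩
    have hd' : derivedSeries N' j = ⊥ := by
      have hs := (QuotientGroup.mk' D).subgroupMap_surjective N
      rw [← map_derivedSeries_eq hs j, Subgroup.map_eq_bot_iff]
      intro y hy
      rw [MonoidHom.mem_ker]
      apply Subtype.ext
      change ((y : G) : G ⧸ D) = 1
      rw [QuotientGroup.eq_one_iff]
      exact ⟨y, hy, rfl⟩
    have h := ih (G ⧸ D) N' hd' (fun b => ((f b : G) : G ⧸ D)) ?_ {x}
    · exact h
    · intro y
      obtain ⟨y, rfl⟩ := QuotientGroup.mk'_surjective N' y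
      obtain ⟨g, rfl⟩ := QuotientGroup.mk'_surjective D y
      have h1 := hf (g : G ⧸ N)
      convert h1 using 1
      ext w
      simp only [Set.mem_ofPred_eq, QuotientGroup.mk'_apply]
      have hmap : (w.map (fun b => ((f b : G) : G ⧸ D))).prod = (((w.map f).prod : G) : G ⧸ D) := by
        have := (map_list_prod (QuotientGroup.mk' D) (w.map f)).symm
        rw [List.map_map] at this
        exact this
      rw [hmap, QuotientGroup.eq, QuotientGroup.eq, ← QuotientGroup.mk_inv, ← QuotientGroup.mk_mul,
        hmem]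

section act

variable {G : Type} [Group G] [Finite G] {Ω : Type} [Finite Ω] [MulAction G Ω] {α : Type}
  [Finite α] (f : α → G)

theorem foldl_act (w : List α) (c : Ω) :
    w.foldl (fun x a => (f a)⁻¹ • x) c = ((w.map f).prod)⁻¹ • c := by
  induction w generalizing c with
  | nil => simp
  | cons a w ih =>
    rw [List.foldl_cons, ih, List.map_cons, List.prod_cons, mul_inv_rev, mul_smul]

theorem cosets {r : ℕ}
    (h : ∀ c d : Ω, HS r {w : List α | w.foldl (fun x a => (f a)⁻¹ • x) c = d})
    (x : G ⧸ (MulAction.toPermHom G Ω).ker) :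
    HS r {w : List α | (((w.map f).prod : G) : G ⧸ (MulAction.toPermHom G Ω).ker) = x} := by
  obtain ⟨g, rfl⟩ := QuotientGroup.mk'_surjective _ x
  have h1 : HS r (⋂ c : Ω, {w : List α | w.foldl (fun x a => (f a)⁻¹ • x) c = g⁻¹ • c}) :=
    HS.iInter _ fun c => h c _
  convert h1 using 1
  ext w
  simp only [Set.mem_ofPred_eq, Set.mem_iInter, foldl_act, QuotientGroup.mk'_apply]
  rw [eq_comm, QuotientGroup.eq, MonoidHom.mem_ker]
  constructor
  · intro h2 c
    have h3 := congrArg (fun π : Equiv.Perm Ω => π (((w.map f).prod)⁻¹ • c)) h2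
    simp only [MulAction.toPermHom_apply, MulAction.toPerm_apply, Equiv.Perm.one_apply,
      mul_smul, smul_inv_smul] at h3
    exact h3.symm
  · intro h2
    ext c
    have h3 := h2 ((w.map f).prod • c)
    rw [inv_smul_smul] at h3
    simp only [MulAction.toPermHom_apply, MulAction.toPerm_apply, Equiv.Perm.one_apply, mul_smul]
    exact h3.symm

theorem group_deg (r j : ℕ) (hΩ : Nat.card Ω ≤ r + 3)
    (hd : derivedSeries (MulAction.toPermHom G Ω).ker j = ⊥) (S : Set G) :
    HS (r + 1 + j) {w : List α | (w.map f).prod ∈ S} := by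
  refine lift_solv (r + 1) j G _ hd f (cosets f ?_) S
  intro c d
  exact deg r Ω hΩ (fun a => MulAction.toPerm (f a)⁻¹) c d

end act

section avoid

variable {α : Type}

/-! ### Runs which avoid a set -/

/-- Every point of the run of the word `w` from `c` (the starting point and the end included) is
outside of `B`. -/
def Avoids {Q : Type} (δ : Q → α → Q) (B : Set Q) : Q → List α → Prop
  | c, [] => c ∉ B
  | c, a :: w => c ∉ B ∧ Avoids δ B (δ c a) w

/-- Counter-free outside of `B`: if a power `u ^ n`, `n ≥ 1`, of a word leads from `c` to `c`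
without meeting `B`, then `u` leads from `c` to `c`. -/
def CounterFreeOff {Q : Type} (δ : Q → α → Q) (B : Set Q) : Prop :=
  ∀ (c : Q) (u : List α) (n : ℕ), 0 < n → Avoids δ B c (List.replicate n u).flatten →
    (List.replicate n u).flatten.foldl δ c = c → u.foldl δ c = c

theorem Avoids.start {Q : Type} {δ : Q → α → Q} {B : Set Q} {c : Q} {w : List α}
    (h : Avoids δ B c w) : c ∉ B := by
  cases w with
  | nil => exact h
  | cons a w => exact h.1

theorem Avoids_append {Q : Type} (δ : Q → α → Q) (B : Set Q) (c : Q) (u v : List α) :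
    Avoids δ B c (u ++ v) ↔ Avoids δ B c u ∧ Avoids δ B (u.foldl δ c) v := by
  induction u generalizing c with
  | nil =>
    constructor
    · intro h; exact ⟨h.start, h⟩
    · intro h; exact h.2
  | cons a u ih =>
    simp only [List.cons_append, Avoids, List.foldl_cons, ih]
    tauto

theorem dlB_Avoids {Q : Type} (δ : Q → α → Q) (B : Set Q) (w : List α) (p q : Q) (hp : p ∉ B) :
    w.foldl (dlB δ B) (some p) = some q ↔ Avoids δ B p w ∧ w.foldl δ p = q := by
  induction w generalizing p with
  | nil => simp [Avoids, hp]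
  | cons a w ih =>
    rw [List.foldl_cons, dlB]
    by_cases h : δ p a ∈ B
    · rw [if_pos h, dlB_none]
      simp only [reduceCtorEq, Avoids, false_iff]
      rintro ⟨⟨-, h2⟩, -⟩
      exact h2.start h
    · rw [if_neg h, ih _ h]
      simp [Avoids, hp]

theorem dlB_end {Q : Type} (δ : Q → α → Q) (B : Set Q) (w : List α) (hw : w ≠ []) (p q : Q)
    (h : w.foldl (dlB δ B) (some p) = some q) : q ∉ B := by
  induction w generalizing p with
  | nil => exact absurd rfl hw
  | cons a w ih =>
    rw [List.foldl_cons, dlB] at h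
    by_cases h1 : δ p a ∈ B
    · rw [if_pos h1, dlB_none] at h
      exact absurd h (by simp)
    · rw [if_neg h1] at h
      by_cases h2 : w = []
      · subst h2
        simp only [List.foldl_nil, Option.some.injEq] at h
        rw [← h]; exact h1
      · exact ih h2 _ h

theorem cfB' {Q : Type} [Finite Q] [Finite α] (δ : Q → α → Q) (B : Finset Q)
    (h : CounterFreeOff δ (B : Set Q)) (p q : Q) :
    HS B.card {w : List α | w.foldl δ p = q} := by
  refine cfB δ B ?_ p q
  intro q u k hk hit
  by_cases hu : u = []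
  · subst hu; rfl
  rw [foldl_pow] at hit
  have hne : (List.replicate k u).flatten ≠ [] := by
    intro h2
    rw [List.flatten_eq_nil_iff] at h2
    exact hu (h2 u (List.mem_replicate.2 ⟨hk.ne', rfl⟩))
  have hq : q ∉ (B : Set Q) := dlB_end δ _ _ hne q q hit
  obtain ⟨h1, h2⟩ := (dlB_Avoids δ _ _ q q hq).1 hit
  have h3 := h q u k hk h1 h2
  rw [dlB_Avoids δ _ _ q q hq]
  refine ⟨?_, h3⟩
  obtain ⟨k, rfl⟩ := Nat.exists_eq_add_of_lt hk
  rw [zero_add, List.replicate_succ, List.flatten_cons, Avoids_append] at h1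
  exact h1.1

end avoid

section act

variable {G : Type} [Group G] [Finite G] {Ω : Type} [Finite Ω] [MulAction G Ω] {α : Type}
  [Finite α] (f : α → G)

theorem rev_run (B : Set Ω) (w : List α) (c : Ω)
    (h : Avoids (fun x a => (f a)⁻¹ • x) B c w) :
    Avoids (fun x a => f a • x) B (w.foldl (fun x a => (f a)⁻¹ • x) c) w.reverse ∧
      w.reverse.foldl (fun x a => f a • x) (w.foldl (fun x a => (f a)⁻¹ • x) c) = c := by
  induction w generalizing c with
  | nil => exact ⟨h, rfl⟩
  | cons a w ih =>
    obtain ⟨h1, h2⟩ := h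
    obtain ⟨h3, h4⟩ := ih _ h2
    rw [List.reverse_cons, List.foldl_cons, List.foldl_append, h4, Avoids_append, h4]
    refine ⟨⟨h3, h2.start, ?_⟩, ?_⟩
    · change f a • (f a)⁻¹ • c ∉ B
      rw [smul_inv_smul]; exact h1
    · change f a • (f a)⁻¹ • c = c
      exact smul_inv_smul _ _

theorem CounterFreeOff.inv {B : Set Ω} (h : CounterFreeOff (fun (x : Ω) a => f a • x) B) :
    CounterFreeOff (fun (x : Ω) a => (f a)⁻¹ • x) B := by
  intro c u n hn h1 h2
  obtain ⟨h3, h4⟩ := rev_run f B _ c h1
  rw [h2] at h3 h4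
  have hr : (List.replicate n u).flatten.reverse = (List.replicate n u.reverse).flatten := by
    rw [List.reverse_flatten, List.map_replicate, List.reverse_replicate]
  rw [hr] at h3 h4
  have h5 := h c u.reverse n hn h3 h4
  -- `u.reverse` fixes `c` for the action, so `u` fixes `c` for the inverse action
  have h6 : ∀ (u : List α) (c d : Ω), u.reverse.foldl (fun (x : Ω) a => f a • x) c = d →
      u.foldl (fun (x : Ω) a => (f a)⁻¹ • x) d = c := by
    intro u
    induction u with
    | nil => intro c d h; exact h.symm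
    | cons a u ih =>
      intro c d h
      rw [List.reverse_cons, List.foldl_append] at h
      change f a • _ = d at h
      rw [List.foldl_cons, ← h]
      change u.foldl _ ((f a)⁻¹ • f a • _) = c
      rw [inv_smul_smul]
      exact ih c _ rfl
  exact h6 u c c h5

theorem group_cf (j : ℕ) (B : Finset Ω) (h : CounterFreeOff (fun (x : Ω) a => f a • x) (B : Set Ω))
    (hd : derivedSeries (MulAction.toPermHom G Ω).ker j = ⊥) (S : Set G) :
    HS (B.card + j) {w : List α | (w.map f).prod ∈ S} := by
  refine lift_solv B.card j G _ hd f (cosets f ?_) S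
  intro c d
  exact cfB' _ B (CounterFreeOff.inv f h) c d

end act

end Pool.Agent.Y553.GSH
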