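import Pool.Agent.H815R3.GSH.Count
import Pool.Agent.H815R3.GSH.Solv
import Pool.Agent.H815R3.GSH.Prod

/-! Deleting points from a permutation automaton: generalized star height at most the number of
the deleted points, if the rest is counter-free; completion of partial injections. -/

set_option autoImplicit false
set_option linter.unusedSectionVars false

namespace Pool.Agent.Y553.GSH

open Pool.Agent.H936R2.SH Pool.Agent.H815R3.GSH

section run

variable {Q α : Type} (δ : Q → α → Q) (b : Q)

theorem Fh_HS [Finite Q] [Finite α] {n : ℕ} (p : Q)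
    (h : ∀ s a, δ s a = b → HS n (Pa δ b p s)) : HS n (Fh δ b p) := by
  rw [Fh_eq]
  exact HS.iUnion _ fun s => HS.iUnion _ fun a =>
    HS.cond _ fun hs => (h s a hs).cat (.letter n a)

/-- One more state. -/
theorem run_n [Finite Q] [Finite α] {n : ℕ} (p q : Q)
    (h1 : ∀ s, (s = q ∨ ∃ a, δ s a = b) → HS n (Pa δ b p s))
    (h2 : ∀ s, (s = q ∨ ∃ a, δ s a = b) → HS n (Pa δ b b s)) :
    HS (n + 1) {w : List α | w.foldl δ p = q} := by
  rw [run_eq δ b]
  have hp : HS n (Fh δ b p) := Fh_HS δ b p fun s a hs => h1 s (Or.inr ⟨a, hs⟩)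
  have hb : HS n (Fh δ b b) := Fh_HS δ b b fun s a hs => h2 s (Or.inr ⟨a, hs⟩)
  exact (h1 q (Or.inl rfl)).succ.union ((hp.succ.cat hb.star).cat (h2 q (Or.inl rfl)).succ)

theorem Pa_to_b (p : Q) (w : List α) (h : w ∈ Pa δ b p b) : w = [] ∧ p = b := by
  induction w generalizing p with
  | nil => exact ⟨rfl, h.2⟩
  | cons a w ih =>
    obtain ⟨⟨h1, h2⟩, h3⟩ := h
    exact absurd (ih (δ p a) ⟨h2, h3⟩).2 h1

theorem allPa [Finite Q] [Finite α] {n : ℕ}
    (h : ∀ p q, p ≠ b → q ≠ b → HS n (Pa δ b p q)) (p q : Q) : HS n (Pa δ b p q) := by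
  have h1 : ∀ p, HS n (Pa δ b p b) := by
    intro p
    have : Pa δ b p b = {w | p = b ∧ w ∈ ({[]} : Set (List α))} := by
      ext w
      constructor
      · intro hw
        obtain ⟨h1, h2⟩ := Pa_to_b δ b p w hw
        exact ⟨h2, h1⟩
      · rintro ⟨rfl, hw⟩
        rw [Set.mem_singleton_iff] at hw
        subst hw
        exact ⟨trivial, rfl⟩
    rw [this]
    exact HS.cond _ fun _ => .eps n
  by_cases hq : q = b
  · subst hq; exact h1 p
  by_cases hp : p = b
  · subst hp
    rw [Pa_step]
    exact (HS.cond _ fun _ => .eps n).union (HS.iUnion _ fun a =>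
      HS.cond _ fun ha => (HS.letter n a).cat (h _ _ ha hq))
  · exact h p q hp hq

end run

/-! ### Deleting a set of states -/

section del

variable {Q α : Type} (δ : Q → α → Q)

open Classical in
/-- the automaton with the states of `B` deleted -/
noncomputable def dlB (B : Set Q) : Option Q → α → Option Q
  | none, _ => none
  | some q, a => if δ q a ∈ B then none else some (δ q a)

theorem dlB_none (B : Set Q) (u : List α) : u.foldl (dlB δ B) none = none := by
  induction u with
  | nil => rfl
  | cons a u ih => exact ih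

theorem dlB_empty (p q : Q) (w : List α) :
    w.foldl (dlB δ ∅) (some p) = some q ↔ w.foldl δ p = q := by
  induction w generalizing p with
  | nil => simp
  | cons a w ih =>
    rw [List.foldl_cons, List.foldl_cons, dlB, if_neg (Set.notMem_empty _), ih]

theorem Pa_dlB (B : Set Q) (b : Q) (p q : Q) :
    Pa (dlB δ B) (some b) (some p) (some q) =
      {w | w.foldl (dlB δ (insert b B)) (some p) = some q} := by
  ext w
  induction w generalizing p with
  | nil => simp [Pa, Nv]
  | cons a w ih =>
    simp only [Pa, Nv, Set.mem_ofPred_eq, List.foldl_cons] at ih ⊢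
    by_cases h1 : δ p a ∈ B
    · have h2 : δ p a ∈ insert b B := Set.mem_insert_of_mem b h1
      rw [dlB, if_pos h1, dlB, if_pos h2, dlB_none, dlB_none]
      simp
    · by_cases h3 : δ p a = b
      · have h2 : δ p a ∈ insert b B := by rw [h3]; exact Set.mem_insert b B
        rw [dlB, if_neg h1, dlB, if_pos h2, dlB_none, h3]
        simp
      · have h2 : δ p a ∉ insert b B := by
          rintro (h | h)
          · exact h3 h
          · exact h1 h
        rw [dlB, if_neg h1, dlB, if_neg h2, ← ih (δ p a)]
        simp [h3]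

theorem stepB [Finite Q] [Finite α] {n : ℕ} (B : Set Q) (b : Q)
    (h : ∀ p q, HS n {w : List α | w.foldl (dlB δ (insert b B)) (some p) = some q}) (p q : Q) :
    HS (n + 1) {w : List α | w.foldl (dlB δ B) (some p) = some q} := by
  have key : ∀ p s, (s = some q ∨ ∃ a, dlB δ B s a = some b) →
      HS n (Pa (dlB δ B) (some b) (some p) s) := by
    intro p s hs
    cases s with
    | none =>
      rcases hs with hs | ⟨a, ha⟩
      · exact absurd hs (by simp)
      · exact absurd ha (by simp [dlB])
    | some s =>
      rw [Pa_dlB δ B b]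
      exact h p s
  exact run_n (dlB δ B) (some b) (some p) (some q) (key p) (key b)

theorem addB [Finite Q] [Finite α] (B : Finset Q) :
    ∀ {n : ℕ}, (∀ p q, HS n {w : List α | w.foldl (dlB δ (B : Set Q)) (some p) = some q}) →
    ∀ p q, HS (n + B.card) {w : List α | w.foldl δ p = q} := by
  classical
  induction B using Finset.induction_on with
  | empty =>
    intro n h p q
    have := h p q
    simp only [Finset.coe_empty, dlB_empty] at this
    simpa using this
  | insert b B hb ih =>
    intro n h p q
    have h1 : ∀ p q, HS (n + 1) {w : List α | w.foldl (dlB δ (B : Set Q)) (some p) = some q} := by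
      intro p q
      refine stepB δ (B : Set Q) b ?_ p q
      intro p q
      have := h p q
      rwa [Finset.coe_insert] at this
    have h2 := ih h1 p q
    rw [Finset.card_insert_of_notMem hb]
    convert h2 using 1
    omega

/-- If the automaton without the states of `B` is counter-free, its languages have height at most
the number of the elements of `B`. -/
theorem cfB [Finite Q] [Finite α] (B : Finset Q)
    (h : ∀ (q : Q) (u : List α) (k : ℕ), 0 < k →
      (fun r => u.foldl (dlB δ (B : Set Q)) r)^[k] (some q) = some q →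
      u.foldl (dlB δ (B : Set Q)) (some q) = some q) (p q : Q) :
    HS B.card {w : List α | w.foldl δ p = q} := by
  have hCF : CF (dlB δ (B : Set Q)) (Set.univ : Set α) := by
    intro o u k _ hk ho
    cases o with
    | none => exact dlB_none δ _ u
    | some r => exact h r u k hk ho
  have h0 : ∀ p q, HS 0 {w : List α | w.foldl (dlB δ (B : Set Q)) (some p) = some q} := by
    intro p q
    have := schutz _ (Option Q) le_rfl α (dlB δ (B : Set Q)) _ Set.univ le_rfl hCF
      (some p) (some q)
    convert this using 1
    ext w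
    simp
  have := addB δ B h0 p q
  rwa [Nat.zero_add] at this

end del

/-! ### Completion of the partial injections -/

section comp

variable {Ω α : Type}

theorem Nv_append {Q : Type} (δ : Q → α → Q) (b p : Q) (u : List α) (a : α) (v : List α)
    (h : Nv δ b p (u ++ a :: v)) : Nv δ b p u ∧ δ (u.foldl δ p) a ≠ b := by
  induction u generalizing p with
  | nil => exact ⟨trivial, h.1⟩
  | cons c u ih =>
    obtain ⟨h1, h2⟩ := h
    obtain ⟨h3, h4⟩ := ih _ h2
    exact ⟨⟨h1, h3⟩, h4⟩

/-- `δ'` on the points different from `b` agrees with `δ` as long as `b` is not reached. -/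
theorem compl_eq (δ : Ω → α → Ω) (b : Ω) (δ' : {x // x ≠ b} → α → {x // x ≠ b})
    (hδ : ∀ x a, δ x.1 a ≠ b → (δ' x a).1 = δ x.1 a) (p q : {x // x ≠ b}) :
    Pa δ b p.1 q.1 = {w : List α | w.foldl δ' p = q} ∩
      (⋃ s : {x // x ≠ b}, ⋃ a : α, {w : List α | δ s.1 a = b ∧
        w ∈ cat (cat {u : List α | u.foldl δ' p = s} {[a]}) Set.univ})ᶜ := by
  have F1 : ∀ (w : List α) (p : {x // x ≠ b}), Nv δ b p.1 w →
      (w.foldl δ' p).1 = w.foldl δ p.1 := by
    intro w
    induction w with
    | nil => intro p _; rfl
    | cons a w ih =>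
      intro p h
      have h1 := ih (δ' p a) (by rw [hδ p a h.1]; exact h.2)
      rw [List.foldl_cons, h1, hδ p a h.1, List.foldl_cons]
  ext w
  constructor
  · rintro ⟨h1, h2⟩
    refine ⟨Subtype.ext ?_, ?_⟩
    · rw [F1 w p h1]; exact h2
    · rw [Set.mem_compl_iff]
      intro h
      simp only [Set.mem_iUnion] at h
      obtain ⟨s, a, hs, x, ⟨u, hu, v, hv, rfl⟩, y, -, rfl⟩ := h
      rw [Set.mem_singleton_iff] at hv
      subst hv
      have h3 := Nv_append δ b p.1 u a y (by simpa using h1)
      apply h3.2
      rw [← F1 u p h3.1]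
      have hu' : u.foldl δ' p = s := hu
      rw [hu']
      exact hs
  · rintro ⟨h1, h2⟩
    rcases Nv_or δ b p.1 w with h | ⟨f, e, rfl, u, a, rfl, hu, ha⟩
    · refine ⟨h, ?_⟩
      rw [← F1 w p h]
      exact congrArg Subtype.val h1
    · exfalso
      rw [Set.mem_compl_iff] at h2
      apply h2
      simp only [Set.mem_iUnion]
      refine ⟨u.foldl δ' p, a, ?_, u ++ [a], ⟨u, rfl, [a], rfl, rfl⟩, e, trivial, rfl⟩
      rw [F1 u p hu]; exact ha

open Classical in
/-- the completion of the partial injection induced on the points different from `b` -/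
noncomputable def cpl (b : Ω) (f : Equiv.Perm Ω) : Equiv.Perm {x // x ≠ b} :=
  (Equiv.swap (f b) b * f).subtypePerm (p := fun x => x ≠ b) (by
    intro x
    have hb : (Equiv.swap (f b) b * f) b = b := by
      rw [Equiv.Perm.mul_apply, Equiv.swap_apply_left]
    constructor
    · intro h h2
      subst h2
      exact h hb
    · intro h h2
      exact h ((Equiv.swap (f b) b * f).injective (h2.trans hb.symm)))

theorem cpl_apply (b : Ω) (f : Equiv.Perm Ω) (x : {x // x ≠ b}) (h : f x.1 ≠ b) :
    (cpl b f x).1 = f x.1 := by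
  classical
  unfold cpl
  rw [Equiv.Perm.subtypePerm_apply]
  change Equiv.swap (f b) b (f x.1) = f x.1
  exact Equiv.swap_apply_of_ne_of_ne (fun h2 => x.2 (f.injective h2)) h

end comp

end Pool.Agent.Y553.GSH
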